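import Pool.Agent.Helper30.AC.Stmts

/-! Row ALG of the sheet AC. -/

set_option autoImplicit false

namespace Pool.Agent.Helper4.AC

open Filter Topology
open Pool.Agent.Helper30.AC

universe u

theorem alg_ext {V E : Type*} [AddCommGroup V] [Module ℝ V] [AddCommGroup E] [Module ℝ E]
    (Q : Set V) (H : V → E) (hc : Convex ℝ Q) (h0 : (0 : V) ∈ Q) (hs : ∀ v ∈ Q, -v ∈ Q)
    (hH0 : H 0 = 0)
    (hH : ∀ x ∈ Q, ∀ y ∈ Q, ∀ t : ℝ, 0 ≤ t → t ≤ 1 →
      H (t • x + (1 - t) • y) = t • H x + (1 - t) • H y) :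
    ∃ L : V →ₗ[ℝ] E, ∀ x ∈ Q, L x = H x := by
  have hsc : ∀ k ∈ Q, ∀ t : ℝ, 0 ≤ t → t ≤ 1 → H (t • k) = t • H k := by
    intro k hk t ht0 ht1
    have := hH k hk 0 h0 t ht0 ht1
    rw [smul_zero, add_zero, hH0, smul_zero, add_zero] at this
    exact this
  have hneg : ∀ k ∈ Q, H (-k) = -H k := by
    intro k hk
    have h := hH k hk (-k) (hs k hk) (1 / 2) (by norm_num) (by norm_num)
    have e : (1 / 2 : ℝ) • k + (1 - 1 / 2 : ℝ) • (-k) = 0 := by
      rw [smul_neg, ← sub_eq_add_neg, ← sub_smul]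
      norm_num
    rw [e, hH0] at h
    have h2 : (1 - 1 / 2 : ℝ) = 1 / 2 := by norm_num
    rw [h2, ← smul_add] at h
    have h3 : H k + H (-k) = 0 := by
      rcases smul_eq_zero.1 h.symm with h4 | h4
      · norm_num at h4
      · exact h4
    exact (neg_eq_of_add_eq_zero_right h3).symm
  have hwd1 : ∀ (t s : ℝ) (k l : V), 0 < t → t ≤ s → k ∈ Q → l ∈ Q → t • k = s • l →
      t • H k = s • H l := by
    intro t s k l ht hts hk _ h
    have hs0 : 0 < s := lt_of_lt_of_le ht hts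
    have e : l = (t / s) • k := by
      have : s⁻¹ • (s • l) = s⁻¹ • (t • k) := by rw [h]
      rw [inv_smul_smul₀ hs0.ne', smul_smul] at this
      rw [this]
      congr 1
      field_simp
    rw [e, hsc k hk _ (by positivity) ((div_le_one hs0).2 hts), smul_smul]
    congr 1
    field_simp
  have hwd : ∀ (t s : ℝ) (k l : V), 0 < t → 0 < s → k ∈ Q → l ∈ Q → t • k = s • l →
      t • H k = s • H l := by
    intro t s k l ht hs0 hk hl h
    rcases le_total t s with h1 | h1
    · exact hwd1 t s k l ht h1 hk hl h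
    · exact (hwd1 s t l k hs0 h1 hl hk h.symm).symm
  have hadd : ∀ (t s : ℝ) (k l : V), 0 < t → 0 < s → k ∈ Q → l ∈ Q →
      ∃ m ∈ Q, t • k + s • l = (t + s) • m ∧ t • H k + s • H l = (t + s) • H m := by
    intro t s k l ht hs0 hk hl
    have hts : 0 < t + s := by linarith
    have e1 : 1 - t / (t + s) = s / (t + s) := by field_simp; ring
    have e2 : (t + s) * (t / (t + s)) = t := by field_simp
    have e3 : (t + s) * (s / (t + s)) = s := by field_simp
    refine ⟨(t / (t + s)) • k + (1 - t / (t + s)) • l, ?_, ?_, ?_⟩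
    · exact hc hk hl (by positivity) (by rw [e1]; positivity) (by ring)
    · rw [smul_add, smul_smul, smul_smul, e1, e2, e3]
    · rw [hH k hk l hl _ (by positivity) ((div_le_one hts).2 (by linarith)), smul_add, smul_smul,
        smul_smul, e1, e2, e3]
  let W : Submodule ℝ V :=
    { carrier := {x | ∃ t : ℝ, 0 < t ∧ ∃ k ∈ Q, x = t • k}
      zero_mem' := ⟨1, one_pos, 0, h0, by rw [smul_zero]⟩
      add_mem' := by
        rintro _ _ ⟨t, ht, k, hk, rfl⟩ ⟨s, hs0, l, hl, rfl⟩
        obtain ⟨m, hm, e, -⟩ := hadd t s k l ht hs0 hk hl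
        exact ⟨t + s, by linarith, m, hm, e⟩
      smul_mem' := by
        rintro c _ ⟨t, ht, k, hk, rfl⟩
        rcases lt_trichotomy c 0 with h | h | h
        · refine ⟨-c * t, mul_pos (by linarith) ht, -k, hs k hk, ?_⟩
          rw [smul_smul, smul_neg, neg_mul, neg_smul, neg_neg]
        · refine ⟨1, one_pos, 0, h0, ?_⟩
          rw [h, zero_smul, smul_zero]
        · exact ⟨c * t, mul_pos h ht, k, hk, by rw [smul_smul]⟩ }
  choose T hT K hK hTK using fun x : W => (show ∃ t : ℝ, 0 < t ∧ ∃ k ∈ Q, (x : V) = t • k from x.2)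
  have hval : ∀ (x : W) (t : ℝ) (k : V), 0 < t → k ∈ Q → (x : V) = t • k →
      T x • H (K x) = t • H k := by
    intro x t k ht hk h
    exact hwd _ _ _ _ (hT x) ht (hK x) hk ((hTK x).symm.trans h)
  let G1 : W →ₗ[ℝ] E :=
    { toFun := fun x => T x • H (K x)
      map_add' := by
        intro x y
        obtain ⟨m, hm, e, e'⟩ := hadd (T x) (T y) (K x) (K y) (hT x) (hT y) (hK x) (hK y)
        have := hval (x + y) (T x + T y) m (add_pos (hT x) (hT y)) hm (by
          rw [Submodule.coe_add, hTK x, hTK y, e])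
        rw [this, e']
      map_smul' := by
        intro c x
        simp only [RingHom.id_apply]
        rcases lt_trichotomy c 0 with h | h | h
        · have := hval (c • x) (-c * T x) (-K x) (mul_pos (by linarith) (hT x)) (hs _ (hK x)) (by
            rw [Submodule.coe_smul, smul_neg, neg_mul, neg_smul, neg_neg, ← smul_smul, ← hTK x])
          rw [this, hneg _ (hK x), smul_neg, neg_mul, neg_smul, neg_neg, smul_smul]
        · have := hval (c • x) 1 0 one_pos h0 (by
            rw [Submodule.coe_smul, h, zero_smul, smul_zero])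
          rw [this, h, zero_smul, hH0, smul_zero]
        · have := hval (c • x) (c * T x) (K x) (mul_pos h (hT x)) (hK x) (by
            rw [Submodule.coe_smul, ← smul_smul, ← hTK x])
          rw [this, smul_smul] }
  obtain ⟨L, hL⟩ := LinearMap.exists_extend G1
  refine ⟨L, fun x hx => ?_⟩
  have hxW : x ∈ W := ⟨1, one_pos, x, hx, by rw [one_smul]⟩
  have e1 : L x = G1 ⟨x, hxW⟩ := by
    rw [← hL]
    rfl
  rw [e1]
  have := hval ⟨x, hxW⟩ 1 x one_pos hx (by rw [one_smul])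
  rw [one_smul] at this
  exact this

theorem st_ALG : ST_ALG.{u} := by
  intro E _ _ K y N G hK hG hdep
  obtain ⟨-, hcv, h0, hs⟩ := hK
  let P : E →ₗ[ℝ] (Fin N → ℝ) := LinearMap.pi fun i => (y i : E →ₗ[ℝ] ℝ)
  have hP : ∀ v (i : Fin N), P v i = y i v := fun v i => rfl
  have hQ : ∀ x : Fin N → ℝ, ∃ g : E, ∀ v : K, P v = x → G v - G ⟨0, h0⟩ = g := by
    intro x
    by_cases h : ∃ v : K, P v = x
    · obtain ⟨v, hv⟩ := h
      refine ⟨G v - G ⟨0, h0⟩, fun w hw => ?_⟩
      rw [hdep w v fun i hi => ?_]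
      have := congrFun (hw.trans hv.symm) ⟨i, hi⟩
      exact this
    · exact ⟨0, fun v hv => absurd ⟨v, hv⟩ h⟩
  choose H hH using hQ
  have hHv : ∀ v : K, H (P v) = G v - G ⟨0, h0⟩ := fun v => (hH _ v rfl).symm
  obtain ⟨L, hL⟩ := alg_ext (P '' K) H (hcv.linear_image P) ⟨0, h0, map_zero P⟩
    (by
      rintro _ ⟨v, hv, rfl⟩
      exact ⟨-v, hs v hv, map_neg P v⟩)
    (by
      have := hHv ⟨0, h0⟩
      rw [sub_self] at this
      simpa using this)
    (by
      rintro _ ⟨v, hv, rfl⟩ _ ⟨w, hw, rfl⟩ t ht0 ht1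
      have hz : t • v + (1 - t) • w ∈ K := hcv hv hw ht0 (by linarith) (by ring)
      have e : t • P v + (1 - t) • P w = P (t • v + (1 - t) • w) := by
        rw [map_add, map_smul, map_smul]
      rw [e, hHv ⟨_, hz⟩, hHv ⟨v, hv⟩, hHv ⟨w, hw⟩, hG ⟨v, hv⟩ ⟨w, hw⟩ ⟨_, hz⟩ t ht0 ht1 rfl,
        smul_sub, smul_sub]
      have : G ⟨0, h0⟩ = t • G ⟨0, h0⟩ + (1 - t) • G ⟨0, h0⟩ := by
        rw [← add_smul]
        simp
      rw [sub_add_sub_comm, ← this])
  refine ⟨G ⟨0, h0⟩, fun i => if h : i < N then L (Pi.single ⟨i, h⟩ 1) else 0, fun v => ?_⟩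
  have h1 : G v - G ⟨0, h0⟩ = L (P v) := by
    rw [hL _ ⟨v, v.2, rfl⟩, hHv]
  have h2 : P v = ∑ i : Fin N, y i v • (Pi.single i (1 : ℝ) : Fin N → ℝ) := by
    ext j
    rw [Finset.sum_apply, hP]
    simp [Pi.single_apply]
  have h3 : L (P v) = ∑ i : Fin N, y i v • L (Pi.single i 1) := by
    rw [h2, map_sum]
    exact Finset.sum_congr rfl fun i _ => by rw [map_smul]
  rw [Finset.sum_range]
  have h4 : ∀ i : Fin N, (if h : (i : ℕ) < N then L (Pi.single ⟨i, h⟩ 1) else 0) =
      L (Pi.single i 1) := by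
    intro i
    rw [dif_pos i.2]
  simp only [h4]
  rw [← h3, ← h1]
  abel

end Pool.Agent.Helper4.AC
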